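import Mathlib

/-!
# (LF) for finite systems of monoid identities reduces to (LF) for finite systems of
semigroup identities

The main theorem `result` gives a computable (in fact primitive recursive) translation `F` of
finite systems of monoid identities into finite systems of semigroup identities with
`MonoidLF E ↔ SemigroupLF (F E)` for every `E`.
-/

namespace Pool.Agent.Results.MP_0caabd_al.SemigroupReduction

/-- Property (LF) of a finite system `E` of monoid identities `u = v` (`u`, `v` lists of
variables, the empty list being `1`): for every `m` there is a bound on the size of the finite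
`m`-generated monoids satisfying all identities of `E`. -/
def MonoidLF (E : List (List ℕ × List ℕ)) : Prop :=
  ∀ m : ℕ, ∃ B : ℕ, ∀ (M : Type) [Monoid M] [Finite M],
    (∀ p ∈ E, ∀ f : ℕ → M,
      FreeMonoid.lift f (FreeMonoid.ofList p.1) = FreeMonoid.lift f (FreeMonoid.ofList p.2)) →
    (∃ g : Fin m → M, Submonoid.closure (Set.range g) = ⊤) →
    Nat.card M ≤ B

/-- Property (LF) of a finite system `E` of semigroup identities `u = v`. A semigroup word is a
nonempty word, given as a pair `(a, w)` of its first letter `a` and the list `w` of its other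
letters. (LF) says: for every `m` there is a bound on the size of the finite `m`-generated
semigroups satisfying all identities of `E`. -/
def SemigroupLF (E : List ((ℕ × List ℕ) × (ℕ × List ℕ))) : Prop :=
  ∀ m : ℕ, ∃ B : ℕ, ∀ (S : Type) [Semigroup S] [Finite S],
    (∀ p ∈ E, ∀ f : ℕ → S,
      FreeSemigroup.lift f ⟨p.1.1, p.1.2⟩ = FreeSemigroup.lift f ⟨p.2.1, p.2.2⟩) →
    (∃ g : Fin m → S, Subsemigroup.closure (Set.range g) = ⊤) →
    Nat.card S ≤ B

/-! ### The translation -/

/-- All sublists of a list. -/
def subs (l : List ℕ) : List (List ℕ) :=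
  l.foldr (fun x acc => acc ++ acc.map (fun k => x :: k)) [[]]

/-- The semigroup identities expressing that a semigroup word `(a, w)` equals `1`; the variables
are shifted by one, and `0` is a new variable. -/
def unitId (a : ℕ) (w : List ℕ) : List ((ℕ × List ℕ) × (ℕ × List ℕ)) :=
  [((a + 1, w.map (fun i => i + 1) ++ [0]), (0, [])),
   ((0, (a :: w).map (fun i => i + 1)), (0, []))]

/-- The semigroup identities replacing a monoid identity `u = v`. -/
def toSgp (u v : List ℕ) : List ((ℕ × List ℕ) × (ℕ × List ℕ)) :=
  List.casesOn u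
    (List.casesOn v [] (fun b r => unitId b r))
    (fun a l => List.casesOn v (unitId a l) (fun b r => [((a, l), (b, r))]))

/-- The word obtained from `u` by deleting all variables which are not in the list `K`. -/
def keep (u K : List ℕ) : List ℕ := u.filter (fun x => x ∈ K)

/-- The translation of a finite system of monoid identities: all identities obtained by deleting
variables, with `w = 1` replaced by `w y = y = y w`. -/
def translate (E : List (List ℕ × List ℕ)) : List ((ℕ × List ℕ) × (ℕ × List ℕ)) :=
  E.flatMap (fun p => (subs (p.1 ++ p.2)).flatMap (fun K => toSgp (keep p.1 K) (keep p.2 K)))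

/-! ### Computability -/

theorem primrec_subs : Primrec subs := by
  have h : Primrec₂ (fun (_ : List ℕ) (q : ℕ × List (List ℕ)) =>
      q.2 ++ q.2.map (fun k => q.1 :: k)) := by
    refine Primrec.list_append.comp (Primrec.snd.comp Primrec.snd) ?_
    refine Primrec.list_map (Primrec.snd.comp Primrec.snd) ?_
    exact Primrec.list_cons.comp ((Primrec.fst.comp Primrec.snd).comp Primrec.fst) Primrec.snd
  exact Primrec.list_foldr Primrec.id (Primrec.const [[]]) h

theorem primrec_unitId : Primrec₂ unitId := by
  have hs : Primrec₂ (fun (_ : ℕ × List ℕ) (i : ℕ) => i + 1) :=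
    (Primrec.succ.comp Primrec.snd).to₂
  have hs' : Primrec₂ (fun (_ : List ℕ) (i : ℕ) => i + 1) :=
    (Primrec.succ.comp Primrec.snd).to₂
  have hmap : Primrec (fun l : List ℕ => l.map (fun i => i + 1)) :=
    Primrec.list_map Primrec.id hs'
  have h1 : Primrec (fun q : ℕ × List ℕ =>
      (((q.1 + 1, q.2.map (fun i => i + 1) ++ [0]), ((0 : ℕ), ([] : List ℕ))) :
        (ℕ × List ℕ) × (ℕ × List ℕ))) := by
    refine Primrec.pair (Primrec.pair (Primrec.succ.comp Primrec.fst) ?_) (Primrec.const _)
    exact Primrec.list_append.comp (hmap.comp Primrec.snd) (Primrec.const _)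
  have h2 : Primrec (fun q : ℕ × List ℕ =>
      (((0, (q.1 :: q.2).map (fun i => i + 1)), ((0 : ℕ), ([] : List ℕ))) :
        (ℕ × List ℕ) × (ℕ × List ℕ))) := by
    refine Primrec.pair (Primrec.pair (Primrec.const _) ?_) (Primrec.const _)
    exact hmap.comp (Primrec.list_cons.comp Primrec.fst Primrec.snd)
  exact Primrec.list_cons.comp h1 (Primrec.list_cons.comp h2 (Primrec.const []))

theorem primrec_toSgp : Primrec₂ toSgp := by
  have hinner1 : Primrec (fun q : List ℕ × List ℕ =>
      (List.casesOn q.2 [] (fun b r => unitId b r) : List ((ℕ × List ℕ) × (ℕ × List ℕ)))) :=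
    Primrec.list_casesOn (f := fun q : List ℕ × List ℕ => q.2) (g := fun _ => [])
      (h := fun _ br => unitId br.1 br.2) Primrec.snd (Primrec.const [])
      (primrec_unitId.comp (Primrec.fst.comp Primrec.snd) (Primrec.snd.comp Primrec.snd)).to₂
  have hinner2 : Primrec₂ (fun (q : List ℕ × List ℕ) (al : ℕ × List ℕ) =>
      (List.casesOn q.2 (unitId al.1 al.2) (fun b r => [((al.1, al.2), (b, r))]) :
        List ((ℕ × List ℕ) × (ℕ × List ℕ)))) := by
    refine Primrec.list_casesOn
      (f := fun z : (List ℕ × List ℕ) × (ℕ × List ℕ) => z.1.2)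
      (g := fun z => unitId z.2.1 z.2.2)
      (h := fun z br => [((z.2.1, z.2.2), (br.1, br.2))])
      (Primrec.snd.comp Primrec.fst)
      (primrec_unitId.comp (Primrec.fst.comp Primrec.snd) (Primrec.snd.comp Primrec.snd)) ?_
    refine Primrec.list_cons.comp ?_ (Primrec.const [])
    exact Primrec.pair (Primrec.snd.comp Primrec.fst) Primrec.snd
  exact Primrec.list_casesOn (f := fun q : List ℕ × List ℕ => q.1)
    (g := fun q => (List.casesOn q.2 [] (fun b r => unitId b r) :
      List ((ℕ × List ℕ) × (ℕ × List ℕ))))
    (h := fun q al => (List.casesOn q.2 (unitId al.1 al.2)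
      (fun b r => [((al.1, al.2), (b, r))]) : List ((ℕ × List ℕ) × (ℕ × List ℕ))))
    Primrec.fst hinner1 hinner2

theorem primrec_keep : Primrec₂ keep := by
  have hR : PrimrecRel (fun (a : ℕ) (K : List ℕ) => a ∈ K) := by
    have h := PrimrecRel.exists_mem_list (R := fun (a : ℕ) (b : ℕ) => a = b) Primrec.eq
    have h' : PrimrecRel (fun (a : ℕ) (K : List ℕ) => ∃ x ∈ K, x = a) := h.swap
    exact h'.of_eq (fun a K => by simp)
  exact PrimrecRel.listFilter hR

theorem primrec_translate : Primrec translate := by
  unfold translate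
  refine Primrec.list_flatMap Primrec.id ?_
  have h : Primrec (fun p : List ℕ × List ℕ =>
      (subs (p.1 ++ p.2)).flatMap (fun K => toSgp (keep p.1 K) (keep p.2 K))) := by
    refine Primrec.list_flatMap
      (primrec_subs.comp (Primrec.list_append.comp Primrec.fst Primrec.snd)) ?_
    exact primrec_toSgp.comp
      (primrec_keep.comp (Primrec.fst.comp Primrec.fst) Primrec.snd)
      (primrec_keep.comp (Primrec.snd.comp Primrec.fst) Primrec.snd)
  exact h.comp Primrec.snd

/-! ### Evaluation of words -/

theorem mem_subs {k l : List ℕ} (h : k.Sublist l) : k ∈ subs l := by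
  induction h with
  | slnil => simp [subs]
  | @cons l₁ l₂ a _ ih =>
    have : subs (a :: l₂) = subs l₂ ++ (subs l₂).map (fun k => a :: k) := rfl
    rw [this]; exact List.mem_append_left _ ih
  | @cons_cons l₁ l₂ a _ ih =>
    have : subs (a :: l₂) = subs l₂ ++ (subs l₂).map (fun k => a :: k) := rfl
    rw [this]; exact List.mem_append_right _ (List.mem_map.2 ⟨_, ih, rfl⟩)

/-- Evaluation of a nonempty word in a monoid. -/
theorem lift_sgp_eq_prod {M : Type} [Monoid M] (f : ℕ → M) (a : ℕ) (l : List ℕ) :
    FreeSemigroup.lift f ⟨a, l⟩ = ((a :: l).map f).prod := by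
  induction l generalizing a with
  | nil => simp [FreeSemigroup.lift]
  | cons b l ih =>
    have h : (⟨a, b :: l⟩ : FreeSemigroup ℕ) = FreeSemigroup.of a * ⟨b, l⟩ := rfl
    rw [h, map_mul, ih]
    simp [FreeSemigroup.lift]

/-- `M` satisfies the monoid identities `E`. -/
def MonSat (M : Type) [Monoid M] (E : List (List ℕ × List ℕ)) : Prop :=
  ∀ p ∈ E, ∀ f : ℕ → M,
    FreeMonoid.lift f (FreeMonoid.ofList p.1) = FreeMonoid.lift f (FreeMonoid.ofList p.2)

/-- `S` satisfies the semigroup identities `E`. -/
def SgpSat (S : Type) [Semigroup S] (E : List ((ℕ × List ℕ) × (ℕ × List ℕ))) : Prop :=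
  ∀ p ∈ E, ∀ f : ℕ → S,
    FreeSemigroup.lift f ⟨p.1.1, p.1.2⟩ = FreeSemigroup.lift f ⟨p.2.1, p.2.2⟩

theorem monSat_iff {M : Type} [Monoid M] {E : List (List ℕ × List ℕ)} :
    MonSat M E ↔ ∀ p ∈ E, ∀ f : ℕ → M, (p.1.map f).prod = (p.2.map f).prod := by
  simp [MonSat, FreeMonoid.lift_apply]

open Classical in
theorem prod_map_filter {M : Type} [Monoid M] (f : ℕ → M) (u : List ℕ) :
    ((u.filter (fun x => f x ≠ 1)).map f).prod = (u.map f).prod := by
  induction u with
  | nil => rfl
  | cons a l ih =>
    by_cases h : f a = 1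
    · simp [h] at ih ⊢
      exact ih
    · simp [h] at ih ⊢
      rw [ih]

theorem mem_keep {u K : List ℕ} {x : ℕ} : x ∈ keep u K ↔ x ∈ u ∧ x ∈ K := by
  simp [keep]

/-- Replacing the variables outside `K` by `1`. -/
theorem prod_map_keep {M : Type} [Monoid M] (f : ℕ → M) (u K : List ℕ) :
    ((keep u K).map f).prod = (u.map (fun x => if x ∈ K then f x else 1)).prod := by
  induction u with
  | nil => rfl
  | cons a l ih =>
    by_cases h : a ∈ K
    · simp [keep, h] at ih ⊢
      rw [ih]
    · simp [keep, h] at ih ⊢
      exact ih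

theorem sgpSat_of_monSat {M : Type} [Monoid M] {E : List (List ℕ × List ℕ)}
    (h : MonSat M E) : SgpSat M (translate E) := by
  rw [monSat_iff] at h
  intro q hq f
  simp only [translate, List.mem_flatMap] at hq
  obtain ⟨p, hp, K, hK, hq⟩ := hq
  have key : ∀ g : ℕ → M, ((keep p.1 K).map g).prod = ((keep p.2 K).map g).prod := by
    intro g
    rw [prod_map_keep, prod_map_keep]
    exact h p hp _
  rw [lift_sgp_eq_prod, lift_sgp_eq_prod]
  rcases h1 : keep p.1 K with _ | ⟨a, l⟩
  · rcases h2 : keep p.2 K with _ | ⟨b, r⟩
    · simp [h1, h2, toSgp] at hq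
    · rw [h1, h2] at hq
      have key' := key (fun i => f (i + 1))
      rw [h1, h2] at key'
      simp only [toSgp, unitId, List.mem_cons, List.not_mem_nil, or_false] at hq
      have e : (List.map f (List.map (fun i => i + 1) (b :: r))).prod = 1 := by
        rw [List.map_map]; simpa [Function.comp_def] using key'.symm
      rcases hq with rfl | rfl
      · have : (List.map f ((b + 1) :: (List.map (fun i => i + 1) r ++ [0]))).prod
            = (List.map f (List.map (fun i => i + 1) (b :: r))).prod * f 0 := by
          simp [mul_assoc]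
        simp only [this, e]; simp
      · have : (List.map f (0 :: List.map (fun i => i + 1) (b :: r))).prod
            = f 0 * (List.map f (List.map (fun i => i + 1) (b :: r))).prod := by
          simp
        simp only [this, e]; simp
  · rcases h2 : keep p.2 K with _ | ⟨b, r⟩
    · rw [h1, h2] at hq
      have key' := key (fun i => f (i + 1))
      rw [h1, h2] at key'
      simp only [toSgp, unitId, List.mem_cons, List.not_mem_nil, or_false] at hq
      have e : (List.map f (List.map (fun i => i + 1) (a :: l))).prod = 1 := by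
        rw [List.map_map]; simpa [Function.comp_def] using key'
      rcases hq with rfl | rfl
      · have : (List.map f ((a + 1) :: (List.map (fun i => i + 1) l ++ [0]))).prod
            = (List.map f (List.map (fun i => i + 1) (a :: l))).prod * f 0 := by
          simp [mul_assoc]
        simp only [this, e]; simp
      · have : (List.map f (0 :: List.map (fun i => i + 1) (a :: l))).prod
            = f 0 * (List.map f (List.map (fun i => i + 1) (a :: l))).prod := by
          simp
        simp only [this, e]; simp
    · rw [h1, h2] at hq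
      have key' := key f
      rw [h1, h2] at key'
      simp only [toSgp, List.mem_cons, List.not_mem_nil, or_false] at hq
      subst hq
      exact key'

/-- Some deletion of variables turns an identity of `E` into `w = 1` with `w` nonempty. -/
def HasUnitId (E : List (List ℕ × List ℕ)) : Prop :=
  ∃ p ∈ E, ∃ K ∈ subs (p.1 ++ p.2), ¬ (keep p.1 K = [] ↔ keep p.2 K = [])

theorem sgp_unit {S : Type} [Semigroup S] {E : List (List ℕ × List ℕ)}
    (hS : SgpSat S (translate E)) (hE : HasUnitId E) (s : S) :
    ∃ e : S, ∀ y : S, e * y = y ∧ y * e = y := by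
  obtain ⟨p, hp, K, hK, hne⟩ := hE
  -- a word `(a, w)` for which the two identities of `unitId a w` belong to `translate E`
  have hex : ∃ (a : ℕ) (w : List ℕ), ∀ q ∈ unitId a w, q ∈ translate E := by
    rcases h1 : keep p.1 K with _ | ⟨a, l⟩
    · rcases h2 : keep p.2 K with _ | ⟨b, r⟩
      · exact absurd (by simp [h1, h2]) hne
      · refine ⟨b, r, fun q hq => ?_⟩
        simp only [translate, List.mem_flatMap]
        exact ⟨p, hp, K, hK, by rw [h1, h2]; exact hq⟩
    · rcases h2 : keep p.2 K with _ | ⟨b, r⟩
      · refine ⟨a, l, fun q hq => ?_⟩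
        simp only [translate, List.mem_flatMap]
        exact ⟨p, hp, K, hK, by rw [h1, h2]; exact hq⟩
      · exact absurd (by simp [h1, h2]) hne
  obtain ⟨a, w, haw⟩ := hex
  refine ⟨FreeSemigroup.lift (fun _ => s) ⟨a, w⟩, fun y => ?_⟩
  let f : ℕ → S := fun i => Nat.casesOn i y (fun _ => s)
  have hmap : ∀ (b : ℕ) (l : List ℕ),
      FreeSemigroup.lift f ⟨b + 1, l.map (fun i => i + 1)⟩
        = FreeSemigroup.lift (fun _ : ℕ => s) ⟨b, l⟩ := by
    intro b l
    induction l generalizing b with
    | nil => simp [FreeSemigroup.lift, f]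
    | cons c l ih =>
      have h1 : (⟨b + 1, (c :: l).map (fun i => i + 1)⟩ : FreeSemigroup ℕ)
          = FreeSemigroup.of (b + 1) * ⟨c + 1, l.map (fun i => i + 1)⟩ := rfl
      have h2 : (⟨b, c :: l⟩ : FreeSemigroup ℕ) = FreeSemigroup.of b * ⟨c, l⟩ := rfl
      rw [h1, h2, map_mul, map_mul, ih]
      simp [FreeSemigroup.lift, f]
  constructor
  · have h := hS ((a + 1, w.map (fun i => i + 1) ++ [0]), (0, []))
      (haw _ (by simp [unitId])) f
    have h1 : (⟨a + 1, w.map (fun i => i + 1) ++ [0]⟩ : FreeSemigroup ℕ)
        = ⟨a + 1, w.map (fun i => i + 1)⟩ * FreeSemigroup.of 0 := rfl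
    have h2 : (⟨0, []⟩ : FreeSemigroup ℕ) = FreeSemigroup.of 0 := rfl
    simp only [h1, h2, map_mul, hmap] at h
    simpa [FreeSemigroup.lift, f] using h
  · have h := hS ((0, (a :: w).map (fun i => i + 1)), (0, []))
      (haw _ (by simp [unitId])) f
    have h1 : (⟨0, (a :: w).map (fun i => i + 1)⟩ : FreeSemigroup ℕ)
        = FreeSemigroup.of 0 * ⟨a + 1, w.map (fun i => i + 1)⟩ := rfl
    have h2 : (⟨0, []⟩ : FreeSemigroup ℕ) = FreeSemigroup.of 0 := rfl
    simp only [h1, h2, map_mul, hmap] at h
    simpa [FreeSemigroup.lift, f] using h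

theorem keep_self_left (u v : List ℕ) : keep u (u ++ v) = u := by
  unfold keep
  rw [List.filter_eq_self]
  intro a ha
  simp [ha]

theorem keep_self_right (u v : List ℕ) : keep v (u ++ v) = v := by
  unfold keep
  rw [List.filter_eq_self]
  intro a ha
  simp [ha]

/-- A monoid satisfying the translated semigroup identities satisfies the monoid identities. -/
theorem monSat_of_sgpSat {M : Type} [Monoid M] {E : List (List ℕ × List ℕ)}
    (hS : SgpSat M (translate E)) : MonSat M E := by
  rw [monSat_iff]
  intro p hp f
  have hsub : ∀ q ∈ toSgp p.1 p.2, q ∈ translate E := by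
    intro q hq
    simp only [translate, List.mem_flatMap]
    refine ⟨p, hp, p.1 ++ p.2, mem_subs (List.Sublist.refl _), ?_⟩
    rw [keep_self_left, keep_self_right]
    exact hq
  -- `u = 1` follows from the two identities of `unitId`
  have hunit : ∀ (a : ℕ) (w : List ℕ), (∀ q ∈ unitId a w, q ∈ translate E) →
      ((a :: w).map f).prod = 1 := by
    intro a w haw
    have h := hS ((a + 1, w.map (fun i => i + 1) ++ [0]), (0, []))
      (haw _ (by simp [unitId])) (fun i => Nat.casesOn i 1 (fun j => f j))
    rw [lift_sgp_eq_prod, lift_sgp_eq_prod] at h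
    simpa [Function.comp_def] using h
  rcases h1 : p.1 with _ | ⟨a, l⟩
  · rcases h2 : p.2 with _ | ⟨b, r⟩
    · rfl
    · rw [h1, h2] at hsub
      have := hunit b r hsub
      rw [this]; rfl
  · rcases h2 : p.2 with _ | ⟨b, r⟩
    · rw [h1, h2] at hsub
      have := hunit a l hsub
      rw [this]; rfl
    · rw [h1, h2] at hsub
      have h := hS ((a, l), (b, r)) (hsub _ (by simp [toSgp])) f
      rwa [lift_sgp_eq_prod, lift_sgp_eq_prod] at h

theorem lift_coe_withOne {S : Type} [Semigroup S] (f : ℕ → S) (a : ℕ) (l : List ℕ) :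
    ((FreeSemigroup.lift f ⟨a, l⟩ : S) : WithOne S)
      = ((a :: l).map (fun x => ((f x : S) : WithOne S))).prod := by
  induction l generalizing a with
  | nil => simp [FreeSemigroup.lift]
  | cons b l ih =>
    have h : (⟨a, b :: l⟩ : FreeSemigroup ℕ) = FreeSemigroup.of a * ⟨b, l⟩ := rfl
    rw [h, map_mul, WithOne.coe_mul, ih]
    simp [FreeSemigroup.lift]

open Classical in
/-- If no deletion produces an identity `w = 1`, then `S` with an added unit satisfies `E`. -/
theorem monSat_withOne {S : Type} [Semigroup S] {E : List (List ℕ × List ℕ)}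
    (hS : SgpSat S (translate E)) (hE : ¬ HasUnitId E) : MonSat (WithOne S) E := by
  rw [monSat_iff]
  intro p hp f
  set K := (p.1 ++ p.2).filter (fun x => f x ≠ 1) with hK
  have hKs : K ∈ subs (p.1 ++ p.2) := mem_subs List.filter_sublist
  have hk1 : keep p.1 K = p.1.filter (fun x => f x ≠ 1) := by
    unfold keep
    apply List.filter_congr
    intro x hx
    simp [hK, hx]
  have hk2 : keep p.2 K = p.2.filter (fun x => f x ≠ 1) := by
    unfold keep
    apply List.filter_congr
    intro x hx
    simp [hK, hx]
  rw [← prod_map_filter f p.1, ← prod_map_filter f p.2, ← hk1, ← hk2]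
  have hiff : keep p.1 K = [] ↔ keep p.2 K = [] := by
    by_contra hcon
    exact hE ⟨p, hp, K, hKs, hcon⟩
  have hsub : ∀ q ∈ toSgp (keep p.1 K) (keep p.2 K), q ∈ translate E := by
    intro q hq
    simp only [translate, List.mem_flatMap]
    exact ⟨p, hp, K, hKs, hq⟩
  have hne : ∀ x ∈ K, ∃ s : S, f x = (s : WithOne S) := by
    intro x hx
    have : f x ≠ 1 := by
      have := (List.mem_filter.1 hx).2
      simpa using this
    obtain ⟨s, hs⟩ := WithOne.ne_one_iff_exists.1 this
    exact ⟨s, hs.symm⟩
  rcases h1 : keep p.1 K with _ | ⟨a, l⟩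
  · rw [hiff.1 h1]
  · rcases h2 : keep p.2 K with _ | ⟨b, r⟩
    · rw [hiff.2 h2] at h1
      exact absurd h1 (by simp)
    · rw [h1, h2] at hsub
      have haK : a ∈ K := (mem_keep.1 (by rw [h1]; simp : a ∈ keep p.1 K)).2
      obtain ⟨s0, hs0⟩ := hne a haK
      let f' : ℕ → S := fun x => if h : ∃ s : S, f x = (s : WithOne S) then h.choose else s0
      have hf' : ∀ x ∈ K, ((f' x : S) : WithOne S) = f x := by
        intro x hx
        have h := hne x hx
        simp only [f', h, dif_pos]
        exact h.choose_spec.symm
      have h := hS ((a, l), (b, r)) (hsub _ (by simp [toSgp])) f'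
      have h' := congrArg (fun s : S => (s : WithOne S)) h
      simp only [lift_coe_withOne] at h'
      have e1 : (a :: l).map (fun x => ((f' x : S) : WithOne S)) = (a :: l).map f := by
        apply List.map_congr_left
        intro x hx
        exact hf' x (mem_keep.1 (by rw [h1]; exact hx : x ∈ keep p.1 K)).2
      have e2 : (b :: r).map (fun x => ((f' x : S) : WithOne S)) = (b :: r).map f := by
        apply List.map_congr_left
        intro x hx
        exact hf' x (mem_keep.1 (by rw [h2]; exact hx : x ∈ keep p.2 K)).2
      rw [e1, e2] at h'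
      exact h'

/-! ### The equivalence -/

theorem monoidLF_of_semigroupLF {E : List (List ℕ × List ℕ)} (h : SemigroupLF (translate E)) :
    MonoidLF E := by
  intro m
  obtain ⟨B, hB⟩ := h (m + 1)
  refine ⟨B, fun M _ _ hM ⟨g, hg⟩ => hB M (sgpSat_of_monSat hM) ⟨Fin.cons 1 g, ?_⟩⟩
  rw [eq_top_iff]
  let N : Submonoid M :=
    { Subsemigroup.closure (Set.range (Fin.cons 1 g : Fin (m + 1) → M)) with
      one_mem' := Subsemigroup.subset_closure ⟨0, rfl⟩ }
  have hN : Submonoid.closure (Set.range g) ≤ N := by
    rw [Submonoid.closure_le]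
    rintro x ⟨i, rfl⟩
    exact Subsemigroup.subset_closure ⟨i.succ, by simp⟩
  rw [hg] at hN
  intro x _
  exact hN (Submonoid.mem_top x)

theorem semigroupLF_of_monoidLF {E : List (List ℕ × List ℕ)} (h : MonoidLF E) :
    SemigroupLF (translate E) := by
  intro m
  obtain ⟨B, hB⟩ := h m
  refine ⟨B, fun S _ _ hS ⟨g, hg⟩ => ?_⟩
  by_cases hE : HasUnitId E
  · rcases isEmpty_or_nonempty S with hem | ⟨⟨s⟩⟩
    · simp
    · obtain ⟨e, he⟩ := sgp_unit hS hE s
      let _ : Monoid S :=
        { (inferInstance : Semigroup S) with
          one := e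
          one_mul := fun y => (he y).1
          mul_one := fun y => (he y).2 }
      refine hB S (monSat_of_sgpSat hS) ⟨g, ?_⟩
      rw [eq_top_iff]
      have hle : Subsemigroup.closure (Set.range g)
          ≤ (Submonoid.closure (Set.range g)).toSubsemigroup := by
        rw [Subsemigroup.closure_le]
        exact Submonoid.subset_closure
      rw [hg] at hle
      intro x _
      exact hle (Subsemigroup.mem_top x)
  · have hfin : Finite (WithOne S) := inferInstanceAs (Finite (Option S))
    have hcard : Nat.card (WithOne S) ≤ B := by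
      refine hB (WithOne S) (monSat_withOne hS hE) ⟨fun i => (g i : WithOne S), ?_⟩
      rw [eq_top_iff]
      let N : Subsemigroup S :=
        { carrier := {s : S | (s : WithOne S) ∈
            Submonoid.closure (Set.range (fun i => (g i : WithOne S)))}
          mul_mem' := fun {a b} ha hb => by
            change ((a * b : S) : WithOne S) ∈
              Submonoid.closure (Set.range (fun i => (g i : WithOne S)))
            rw [WithOne.coe_mul]
            exact mul_mem ha hb }
      have hN : Subsemigroup.closure (Set.range g) ≤ N := by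
        rw [Subsemigroup.closure_le]
        rintro x ⟨i, rfl⟩
        exact Submonoid.subset_closure ⟨i, rfl⟩
      rw [hg] at hN
      intro x _
      rcases eq_or_ne x 1 with rfl | hx
      · exact one_mem _
      · obtain ⟨s, rfl⟩ := WithOne.ne_one_iff_exists.1 hx
        exact hN (Subsemigroup.mem_top s)
    have hle : Nat.card S ≤ Nat.card (WithOne S) :=
      Nat.card_le_card_of_injective _ (WithOne.coe_injective)
    exact hle.trans hcard

/-- Property (LF) for finite systems of monoid identities is many-one reducible to property (LF)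
for finite systems of semigroup identities. -/
theorem result : ManyOneReducible MonoidLF SemigroupLF :=
  ⟨translate, primrec_translate.to_comp, fun _ =>
    ⟨semigroupLF_of_monoidLF, monoidLF_of_semigroupLF⟩⟩

end Pool.Agent.Results.MP_0caabd_al.SemigroupReduction
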